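import Mathlib
import Pool.Agent.Helper80.SG.Comp

/-!
# Periodic points of compositions `f_k ∘ ⋯ ∘ f_1`, `f_i = h_i(z)^d + b_i`, of arbitrary length

Unconditional.  Let `K` be a number field, `S` a finite set of finite places of `K`, and `d ≥ 4`,
`e ≥ 1` with `d e ≥ 5`.  There is a bound `B` such that every composition `f_k ∘ ⋯ ∘ f_1`, `k ≥ 1`,
of maps `f_i(z) = h_i(z)^d + b_i` has at most `B` periodic points in `K`, where the `h_i` are
polynomials of degree `e` with `S`-integral coefficients and `S`-unit leading coefficient, and the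
`b_i ∈ K` are arbitrary with the same denominator outside `S`, that is,
`max(1, |b_i|_v) = max(1, |b_j|_v)` for `v ∉ S`.  The bound is independent of the number `k` of
factors, hence of the degree `(d e)^k` of the polynomial.

For instance (`K = ℚ`, `S = ∅`, `h_i = z`): for every `d ≥ 5` there is `B` such that for all
`k ≥ 1`, all `D ≥ 1` and all `a_1, …, a_k` coprime to `D`, the composition of the polynomials
`z^d + a_i / D` has at most `B` rational periodic points.

The proof treats the composition as a fibred map over a cyclic base: for two periodic points in the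
same fibre the ratio `t = h(x)/h(y)` satisfies `(t-η)/(t-η') ∈ δ (K*)^(de-1)` with `δ` from a
finite set depending on `K`, `S`, `d`, `e` only.  Faltings' theorem is used for hyperelliptic
curves only (`Pool.Agent.Helper80.UC.hyperelliptic`).
-/

set_option autoImplicit false

open Polynomial NumberField IsDedekindDomain

namespace Pool.Agent.Results.MP_90787a_nt.Compositions

/-- `x` is periodic for `f`: `f^n(x) = x` for some `n ≥ 1`. -/
def IsPeriodic {K : Type} (f : K → K) (x : K) : Prop := ∃ n : ℕ, 0 < n ∧ f^[n] x = x

/-- `compose d [(h_1, b_1), …, (h_k, b_k)]` is `f_k ∘ ⋯ ∘ f_1` with `f_i(z) = h_i(z)^d + b_i`. -/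
def compose {K : Type} [Field K] (d : ℕ) : List (K[X] × K) → K → K
  | [] => id
  | p :: w => fun z => compose d w (p.1.eval z ^ d + p.2)

/-- `h` has degree `e`, and outside `S` its coefficients are integral and its leading coefficient
is a unit. -/
def Admissible {K : Type} [Field K] [NumberField K] (S : Set (HeightOneSpectrum (𝓞 K))) (e : ℕ)
    (h : K[X]) : Prop :=
  h.natDegree = e ∧ ∀ v ∉ S, (∀ i, v.valuation K (h.coeff i) ≤ 1) ∧
    v.valuation K h.leadingCoeff = 1

theorem result (K : Type) [Field K] [NumberField K] (S : Set (HeightOneSpectrum (𝓞 K)))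
    (hS : S.Finite) (d e : ℕ) (hd : 4 ≤ d) (he : 1 ≤ e) (hde : 5 ≤ d * e) :
    ∃ B : ℕ, ∀ w : List (K[X] × K), w ≠ [] → (∀ p ∈ w, Admissible S e p.1) →
      (∀ p ∈ w, ∀ q ∈ w, ∀ v ∉ S, max 1 (v.valuation K p.2) = max 1 (v.valuation K q.2)) →
      {x : K | IsPeriodic (compose d w) x}.encard ≤ B := by
  obtain ⟨B, hB⟩ := Helper80.SG.comp_bound K S hS he hd hde
  have hcomp : ∀ w : List (K[X] × K), compose d w = Helper80.SG.compose d w := by
    intro w
    induction w with
    | nil => rfl
    | cons p w ih => funext z; simp only [compose, Helper80.SG.compose, ih]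
  refine ⟨B, fun w hw hall hden => ?_⟩
  have h1 := hB w hw (fun p hp => ?_) (fun p hp q hq v hv => ?_)
  · rw [hcomp]
    exact h1
  · obtain ⟨hdeg, h⟩ := hall p hp
    refine ⟨hdeg, fun v hv i => ?_, fun v hv => ?_⟩
    · rw [Helper80.UC.mem_A]
      exact (h v hv).1 i
    · rw [Helper80.UC.mem_A, map_inv₀]
      have h2 := (h v hv).2
      rw [leadingCoeff, hdeg] at h2
      rw [h2, inv_one]
  · rw [max_comm, hden p hp q hq v hv, max_comm]

end Pool.Agent.Results.MP_90787a_nt.Compositions
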