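import Mathlib
import Pool.Agent.Helper80.QP.Main

/-!
# Preperiodic points of degree at most two of unicritical polynomials over number fields

Unconditional.  Let `K` be a number field, `d ≥ 6` and `τ ∈ K*` (for instance `τ = 1`).  The number
of preperiodic points of `τ z^d + c` in the algebraic closure of `K` whose degree over `K` is at
most two is bounded by a constant `B` independent of `c ∈ K`; so the same `B` works for all
quadratic extensions of `K` at once.  Outside a finite set `E ⊆ K` of parameters `c` these points
are exactly described: there are none, or there is a `K`-rational fixed point `a` and they are the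
`x` of degree at most two over `K` with `x^d = a^d`.  In particular for `c ∉ E` the map has no
periodic point of degree two over `K`.

The proof: for a periodic point `x` of degree two with conjugate `y` put `t = (x+y)²/(xy) ∈ K`.
For roots of unity `η ≠ 1` of order dividing `d` the elements `t - 2 - η - η⁻¹` are, away from
a fixed finite set of places, units times `(d-1)`-th powers up to a common factor.  This gives
finitely many curves of genus at least two, so finitely many `t`, for all quadratic extensions
together; then all periodic points of degree two lie in one number field and the theorem on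
rational periodic points applies to that field.  Strictly preperiodic points of degree two lead to
the curves `t^(d/2) - 1 = δ s^(d-1)`.  Faltings' theorem is used for hyperelliptic curves only
(`Pool.Agent.Helper80.UC.hyperelliptic`, proved from the library's theorem for `y² = x⁶ + 1`).
-/

set_option autoImplicit false

namespace Pool.Agent.Results.MP_90787a_nt.QuadraticPoints

/-- `x` is preperiodic for `f`: `f^i(x) = f^j(x)` for some `i > j ≥ 0`. -/
def IsPreperiodic {L : Type} (f : L → L) (x : L) : Prop := ∃ i j : ℕ, j < i ∧ f^[i] x = f^[j] x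

/-- The points of degree at most two over `K` in the algebraic closure of `K` which are
preperiodic for `τ z^d + c`. -/
def prePer2 (K : Type) [Field K] (d : ℕ) (τ c : K) : Set (AlgebraicClosure K) :=
  {x | (minpoly K x).natDegree ≤ 2 ∧
    IsPreperiodic (fun z => algebraMap K (AlgebraicClosure K) τ * z ^ d +
      algebraMap K (AlgebraicClosure K) c) x}

theorem result (K : Type) [Field K] [NumberField K] (d : ℕ) (hd : 6 ≤ d) (τ : K) (hτ : τ ≠ 0) :
    ∃ (B : ℕ) (E : Set K), E.Finite ∧ ∀ c : K,
      (prePer2 K d τ c).encard ≤ B ∧
      (c ∉ E → prePer2 K d τ c = ∅ ∨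
        ∃ a : K, τ * a ^ d + c = a ∧ prePer2 K d τ c = {x : AlgebraicClosure K |
          (minpoly K x).natDegree ≤ 2 ∧ x ^ d = algebraMap K (AlgebraicClosure K) a ^ d}) := by
  have hpre : ∀ (f : AlgebraicClosure K → AlgebraicClosure K) (x : AlgebraicClosure K),
      IsPreperiodic f x ↔ Helper80.UC.Pre f x := by
    intro f x
    constructor
    · rintro ⟨i, j, h, e⟩
      exact ⟨j, i, h, e.symm⟩
    · rintro ⟨i, j, h, e⟩
      exact ⟨j, i, h, e.symm⟩
  have hint : ∀ x : AlgebraicClosure K, IsIntegral K x := fun x =>
    (AlgebraicClosure.isAlgebraic K).isAlgebraic x |>.isIntegral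
  have hiff : ∀ x : AlgebraicClosure K, (minpoly K x).natDegree ≤ 2 ↔ Helper80.QP.Deg2 K x :=
    fun x => ⟨fun h => Helper80.QP.deg2_of (hint x) h, fun h => h.minpoly.2⟩
  have hset : ∀ c : K, prePer2 K d τ c = {x : AlgebraicClosure K | Helper80.QP.Deg2 K x ∧
      Helper80.UC.Pre (Helper80.QP.Ft K d τ c) x} := by
    intro c
    ext x
    simp only [prePer2, Set.mem_ofPred_eq, hiff, hpre]
    rfl
  obtain ⟨B, hB⟩ := Helper80.QP.bound2 K (AlgebraicClosure K) hd hτ
  obtain ⟨⟨E, hE, H⟩, -⟩ := Helper80.QP.main2 K (AlgebraicClosure K) hd hτ
  refine ⟨B, E, hE, fun c => ⟨by rw [hset]; exact hB c, fun hc => ?_⟩⟩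
  rw [hset]
  rcases H c hc with h | ⟨a, ha, h⟩
  · left
    ext x
    simp only [Set.mem_ofPred_eq, Set.mem_empty_iff_false, iff_false, not_and]
    exact h x
  · right
    refine ⟨a, ha, ?_⟩
    ext x
    simp only [Set.mem_ofPred_eq, hiff]
    constructor
    · rintro ⟨h1, h2⟩
      exact ⟨h1, (h x h1).mp h2⟩
    · rintro ⟨h1, h2⟩
      exact ⟨h1, (h x h1).mpr h2⟩

end Pool.Agent.Results.MP_90787a_nt.QuadraticPoints
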