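import Mathlib
import Pool.Agent.Helper80.LA.Count

/-!
# Uniform boundedness for the two-parameter families `α z^n + b`, `n` a positive or negative integer

Unconditional.  Let `K` be a number field, `S` a finite set of primes of `K`, and let `n ∈ ℤ`, `m ∈ ℕ`
with `m ∣ n - 1` and (`|n| ≥ 5`, `m ≥ 3`) or (`|n| ≥ 4`, `m ≥ 5`) or (`|n| ≥ 7`, `m ≥ 2`).
There is a constant `C` such that for all `α ∈ K*` whose principal ideal is outside `S` an `m`-th
power (for instance `α ∈ K*^m`) and all `b ∈ K` the rational map `z ↦ α z^n + b` of degree `|n|` has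
at most `C` preperiodic points in `ℙ¹(K)`.
-/

set_option autoImplicit false

open IsDedekindDomain NumberField OnePoint

namespace Pool.Agent.Results.MP_90787a_nt.TwistedUnicritical

open Classical in
/-- The rational map `z ↦ α z^n + b` on `ℙ¹(K) = K ∪ {∞}`, for an integer `n ≠ 0`. -/
noncomputable def monMap {K : Type} [Field K] (n : ℤ) (α b : K) : OnePoint K → OnePoint K
  | ∞ => if 0 < n then ∞ else (b : OnePoint K)
  | (x : K) => if x = 0 ∧ n < 0 then ∞ else ((α * x ^ n + b : K) : OnePoint K)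

/-- `P` is preperiodic for `f`: `f^i(P) = f^j(P)` for some `i > j ≥ 0`. -/
def IsPreperiodic {X : Type} (f : X → X) (P : X) : Prop := ∃ i j : ℕ, j < i ∧ f^[i] P = f^[j] P

theorem result (K : Type) [Field K] [NumberField K] (S : Set (HeightOneSpectrum (𝓞 K)))
    (hS : S.Finite) (n : ℤ) (m : ℕ) (hmn : (m : ℤ) ∣ n - 1)
    (hnm : (5 ≤ |n| ∧ 3 ≤ m) ∨ (4 ≤ |n| ∧ 5 ≤ m) ∨ (7 ≤ |n| ∧ 2 ≤ m)) :
    ∃ C : ℕ, ∀ α b : K, α ≠ 0 →
      (∀ v ∉ S, ∃ γ : WithZero (Multiplicative ℤ), v.valuation K α = γ ^ m) →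
      {P : OnePoint K | IsPreperiodic (monMap n α b) P}.encard ≤ C := by
  classical
  obtain ⟨d, χ, H, hd⟩ : ∃ (d : ℕ) (χ : ℤ), Helper80.LA.Sg d n χ ∧ |n| = d := by
    rcases lt_or_ge 0 n with hn | hn
    · refine ⟨n.toNat, 0, ⟨?_, Or.inl ⟨rfl, ?_⟩⟩, ?_⟩
      · rw [abs_of_pos hn] at hnm; omega
      · omega
      · rw [abs_of_pos hn]; omega
    · refine ⟨(-n).toNat, 1, ⟨?_, Or.inr ⟨rfl, ?_⟩⟩, ?_⟩
      · rw [abs_of_nonpos hn] at hnm; omega
      · omega
      · rw [abs_of_nonpos hn]; omega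
  have hadm : Helper80.LA.Adm d m := by
    rw [hd] at hnm
    unfold Helper80.LA.Adm
    omega
  obtain ⟨C, hC⟩ := Helper80.LA.countK K S hS H hadm hmn
  refine ⟨C, fun α b hα hv => ?_⟩
  have h1 := hC α b hα (fun v hvS => by
    obtain ⟨γ, hγ⟩ := hv v hvS
    refine ⟨-WithZero.log γ, ?_⟩
    simp only [Helper80.UC.o]
    rw [hγ, WithZero.log_pow, nsmul_eq_mul]
    ring)
  have hn0 := H.n_ne
  have hF : monMap n α b = Helper80.LA.F n α b := by
    funext P
    induction P using OnePoint.rec with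
    | infty =>
      show (if 0 < n then (∞ : OnePoint K) else (b : OnePoint K)) = Helper80.LA.F n α b none
      by_cases hn : 0 < n
      · rw [if_pos hn, Helper80.LA.F_none_pos hn]; rfl
      · rw [if_neg hn, Helper80.LA.F_none_neg hn]; rfl
    | coe x =>
      show (if x = 0 ∧ n < 0 then (∞ : OnePoint K) else ((α * x ^ n + b : K) : OnePoint K)) =
        Helper80.LA.F n α b (Option.some x)
      by_cases hx : x = 0
      · subst hx
        by_cases hn : 0 < n
        · rw [if_neg (by omega), Helper80.LA.F_zero_pos hn, zero_zpow n hn0, mul_zero, zero_add]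
          rfl
        · rw [if_pos ⟨rfl, by omega⟩, Helper80.LA.F_zero_neg hn]
          rfl
      · rw [if_neg (fun h => hx h.1), Helper80.LA.F_some hx]
        rfl
  have hset : {P : OnePoint K | IsPreperiodic (monMap n α b) P} =
      {P : Option K | Helper80.UC.Pre (Helper80.LA.F n α b) P} := by
    rw [hF]
    ext P
    constructor
    · rintro ⟨i, j, h, e⟩
      exact ⟨j, i, h, e.symm⟩
    · rintro ⟨i, j, h, e⟩
      exact ⟨j, i, h, e.symm⟩
  rw [hset]
  exact h1

end Pool.Agent.Results.MP_90787a_nt.TwistedUnicritical
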