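import Mathlib
import Pool.Agent.Helper80.UC.Fin2

/-!
# Uniform boundedness for unicritical polynomials of degree at least five over number fields

Unconditional.  Let `K` be a number field, `d ≥ 5` and `τ ∈ K*` (for instance `τ = 1`).
The number of `K`-rational preperiodic points of `τ z^d + c` is bounded by a constant `B`
independent of `c ∈ K`, and outside a finite set `E` of parameters `c` the preperiodic points
are exactly described: there are none, or they are the `x ∈ K` with `x^d = a^d` for a fixed point
`a ∈ K`; in particular only finitely many `c ∈ K` have a `K`-rational point of period `≥ 2`.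
The point at infinity is a fixed point of all these maps and is not counted.

The proof: ratios `t` of periodic points satisfy `(t-η)/(t-η') ∈ δ (K*)^(d-1)` with `δ` from a
finite set (`η ≠ η'` roots of unity of order dividing `d`, `≠ 1`), and the resulting curves have
finitely many points.  The finiteness is deduced from Faltings' theorem for hyperelliptic curves
(`Pool.Agent.Helper80.UC.hyperelliptic`), which is proved from the library's theorem for the single
curve `y² = x⁶ + 1` by the covering trick of Bogomolov and Tschinkel.
-/

set_option autoImplicit false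

namespace Pool.Agent.Results.MP_90787a_nt.UnicriticalUniform

/-- `x` is preperiodic for `f`: `f^i(x) = f^j(x)` for some `i > j ≥ 0`. -/
def IsPreperiodic {K : Type} (f : K → K) (x : K) : Prop := ∃ i j : ℕ, j < i ∧ f^[i] x = f^[j] x

theorem result (K : Type) [Field K] [NumberField K] (d : ℕ) (hd : 5 ≤ d) (τ : K) (hτ : τ ≠ 0) :
    ∃ (B : ℕ) (E : Set K), E.Finite ∧ ∀ c : K,
      {x : K | IsPreperiodic (fun z => τ * z ^ d + c) x}.encard ≤ B ∧
      (c ∉ E → {x : K | IsPreperiodic (fun z => τ * z ^ d + c) x} = ∅ ∨
        ∃ a : K, τ * a ^ d + c = a ∧
          {x : K | IsPreperiodic (fun z => τ * z ^ d + c) x} = {x : K | x ^ d = a ^ d}) := by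
  have hpre : ∀ (f : K → K) (x : K), IsPreperiodic f x ↔ Helper80.UC.Pre f x := by
    intro f x
    constructor
    · rintro ⟨i, j, h, e⟩
      exact ⟨j, i, h, e.symm⟩
    · rintro ⟨i, j, h, e⟩
      exact ⟨j, i, h, e.symm⟩
  simp only [hpre]
  exact Helper80.UC.UB_struct K hd τ hτ

end Pool.Agent.Results.MP_90787a_nt.UnicriticalUniform
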